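import Pool.Agent.H40.EGD.Targets
import Pool.Agent.H67.BL.G4
import Pool.Agent.H26.BL.B1

/-!
Row NXU of the board egd_modules (`MP_009700_an`): uniqueness of the next phase point, and moving
along the ray.
-/

set_option autoImplicit false

namespace Pool.Agent.H33.EGD

open MeasureTheory Set Metric Filter Topology
open Pool.Agent.H93.BL hiding T_B1 T_B2 T_B3 T_SB T_SC
open Pool.Agent.H40.EGD

lemma NXU_not_mem {ι : Type} {P : Polygon ι} {z : ι × ℝ × ℝ} (hz : P.Phase z) :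
    P.pos z ∉ P.Ω :=
  Pool.Agent.H67.BL.G4.not_mem_of_segment P z.1 _
    (openSegment_subset_segment _ _ _ (P.pos_mem hz))

lemma NXU_hit {ι : Type} {P : Polygon ι} {y w : ℂ} {z : ι × ℝ × ℝ} (h : Nx P y w z) :
    ∃ t : ℝ, P.Hit y w z.1 t ∧ P.pos z = y + (t : ℂ) * w := by
  obtain ⟨hz, ⟨t, ht, hp, hr⟩, hd⟩ := h
  refine ⟨t, ⟨ht, hr, ?_, ?_⟩, hp⟩
  · rw [← hp]
    exact P.pos_mem hz
  · have h1 := P.cos_pos_of_phase hz
    rw [← P.ip_dir_n z, hd, P.ip_refl_n] at h1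
    linarith

lemma NXU_shift {ι : Type} {P : Polygon ι} {y w : ℂ} {z : ι × ℝ × ℝ} (t : ℝ) (ht : 0 ≤ t)
    (h : ∀ r ∈ Ioc 0 t, y + (r : ℂ) * w ∈ P.Ω) : Nx P (y + (t : ℂ) * w) w z ↔ Nx P y w z := by
  constructor
  · rintro ⟨hz, ⟨T, hT, hp, hr⟩, hd⟩
    refine ⟨hz, ⟨t + T, by linarith, ?_, fun r hr' => ?_⟩, hd⟩
    · rw [hp]
      push_cast
      ring
    · rcases le_or_gt r t with h1 | h1
      · exact h r ⟨hr'.1, h1⟩
      · have h2 := hr (r - t) ⟨by linarith, by linarith [hr'.2]⟩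
        have e : y + (t : ℂ) * w + ((r - t : ℝ) : ℂ) * w = y + (r : ℂ) * w := by
          push_cast
          ring
        rwa [e] at h2
  · rintro ⟨hz, ⟨T, hT, hp, hr⟩, hd⟩
    have hTt : t < T := by
      by_contra hcon
      exact NXU_not_mem hz (by rw [hp]; exact h T ⟨hT, not_lt.1 hcon⟩)
    refine ⟨hz, ⟨T - t, by linarith, ?_, fun r hr' => ?_⟩, hd⟩
    · rw [hp]
      push_cast
      ring
    · have h2 := hr (t + r) ⟨by linarith [hr'.1], by linarith [hr'.2]⟩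
      have e : y + ((t + r : ℝ) : ℂ) * w = y + (t : ℂ) * w + (r : ℂ) * w := by
        push_cast
        ring
      rwa [e] at h2

/-- (NXU) uniqueness of the next phase point, and moving along the ray -/
theorem NXU : T_NXU := by
  intro ι P y w z z' _
  refine ⟨fun h h' => ?_, fun t ht h => ?_, fun s hs hz h => ?_⟩
  · obtain ⟨t, ht, hp⟩ := NXU_hit h
    obtain ⟨t', ht', hp'⟩ := NXU_hit h'
    obtain ⟨htt, hjj⟩ := (Pool.Agent.H67.BL.G4.g4 ι P y w).1 _ _ _ _ ht ht'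
    refine (Pool.Agent.H26.BL.B1.b1 ι P z z').2.1 h.1 h'.1 hjj ?_ ?_
    · rw [hp, hp', htt]
    · rw [h.2.2, h'.2.2, hjj]
  · exact NXU_shift t ht fun r hr => h r ⟨hr.1.le, hr.2⟩
  · rw [NXU_shift s hs.le h]
    constructor
    · rintro ⟨hz', ⟨t, ht, hp, hr⟩, hd⟩
      exact ⟨hz, hz', t, ht, hp, hr, hd⟩
    · rintro ⟨-, hz', t, ht, hp, hr, hd⟩
      exact ⟨hz', ⟨t, ht, hp, hr⟩, hd⟩

end Pool.Agent.H33.EGD
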